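import Pool.Agent.U562.WV.Stm
import Pool.Agent.K7.H98.GMC.Arch

/-!
# Project WV (helper562), job KIR (helper480): Kirchhoff's formula
-/

set_option autoImplicit false

open MeasureTheory Set Metric
open scoped ENNReal NNReal FourierTransform RealInnerProductSpace

namespace Pool.Agent.U480.WV

open Pool.Agent.U562.WV

abbrev S2 := sphere (0 : E 3) 1

/-- surface measure on the sphere as a type -/
noncomputable abbrev nu : Measure S2 := (volume : Measure (E 3)).toSphere

lemma int_sg (f : E 3 → ℂ) : ∫ w, f w ∂sg = ∫ w : S2, f (w : E 3) ∂nu :=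
  (MeasurableEmbedding.subtype_coe (isClosed_sphere.measurableSet)).integral_map f

lemma map_inner (y : S2) :
    nu.map (fun w : S2 => inner ℝ (y : E 3) (w : E 3)) =
      ENNReal.ofReal (2 * Real.pi) • (volume.restrict (Ioo (-1 : ℝ) 1)) := by
  ext s hs
  have hm : Measurable (fun w : S2 => inner ℝ (y : E 3) (w : E 3)) := by fun_prop
  have h1 := Pool.Agent.K7.H98.GMC.Arch.sphere_height y (s.indicator fun _ => 1)
    (measurable_const.indicator hs)
  rw [Measure.map_apply hm hs, Measure.smul_apply, smul_eq_mul]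
  rw [lintegral_indicator hs, lintegral_const, one_mul, Measure.restrict_apply_univ] at h1
  rw [← h1, ← lintegral_indicator_one (hm hs)]
  rfl

lemma int_height (y : S2) (G : ℝ → ℂ) (hG : Continuous G) :
    ∫ w : S2, G (inner ℝ (y : E 3) (w : E 3)) ∂nu = (2 * Real.pi : ℝ) • ∫ c in (-1 : ℝ)..1, G c := by
  have hm : Measurable (fun w : S2 => inner ℝ (y : E 3) (w : E 3)) := by fun_prop
  rw [← integral_map hm.aemeasurable hG.aestronglyMeasurable, map_inner, integral_smul_measure,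
    ENNReal.toReal_ofReal (by positivity), intervalIntegral.integral_of_le (by norm_num),
    integral_Ioc_eq_integral_Ioo]

lemma int_osc (a : ℝ) :
    ∫ c in (-1 : ℝ)..1, (1 + Complex.I * a * c) * Complex.exp (Complex.I * a * c) =
      2 * (Real.cos a : ℂ) := by
  have h1 : ∀ c ∈ uIcc (-1 : ℝ) 1, HasDerivAt (fun c : ℝ => (c : ℂ) * Complex.exp (Complex.I * a * c))
      ((1 + Complex.I * a * c) * Complex.exp (Complex.I * a * c)) c := by
    intro c _
    have h2 : HasDerivAt (fun c : ℝ => (c : ℂ)) 1 c := Complex.ofRealCLM.hasDerivAt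
    have h3 : HasDerivAt (fun c : ℝ => Complex.I * a * (c : ℂ)) (Complex.I * a * 1) c :=
      h2.const_mul _
    refine (h2.mul h3.cexp).congr_deriv ?_
    ring
  rw [intervalIntegral.integral_eq_sub_of_hasDerivAt h1
    (Continuous.intervalIntegrable (by fun_prop) _ _)]
  rw [Complex.ofReal_cos, Complex.cos]
  push_cast
  rw [mul_one, show Complex.I * (a : ℂ) * -1 = -(a : ℂ) * Complex.I by ring,
    show Complex.I * (a : ℂ) = (a : ℂ) * Complex.I by ring]
  ring

/-- the spherical integral -/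
lemma int_J (t : ℝ) (ξ : E 3) :
    ∫ w : S2, (1 + (t : ℂ) * ((2 * Real.pi * inner ℝ (w : E 3) ξ : ℝ) * Complex.I)) *
      Complex.exp (((2 * Real.pi * (t * inner ℝ (w : E 3) ξ) : ℝ) : ℂ) * Complex.I) ∂nu =
      4 * Real.pi * (Real.cos (2 * Real.pi * t * ‖ξ‖) : ℂ) := by
  obtain ⟨y, hy⟩ : ∃ y : S2, ξ = ‖ξ‖ • (y : E 3) := by
    by_cases h0 : ξ = 0
    · refine ⟨⟨EuclideanSpace.single 0 1, by simp⟩, ?_⟩
      rw [h0, norm_zero, zero_smul]
    · refine ⟨⟨‖ξ‖⁻¹ • ξ, ?_⟩, ?_⟩
      · rw [mem_sphere_zero_iff_norm, norm_smul, norm_inv, norm_norm, inv_mul_cancel₀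
          (norm_ne_zero_iff.2 h0)]
      · rw [smul_smul, mul_inv_cancel₀ (norm_ne_zero_iff.2 h0), one_smul]
  have h1 := int_height y (fun c => (1 + Complex.I * ((2 * Real.pi * t * ‖ξ‖ : ℝ) : ℂ) * c) *
    Complex.exp (Complex.I * ((2 * Real.pi * t * ‖ξ‖ : ℝ) : ℂ) * c)) (by fun_prop)
  rw [int_osc] at h1
  have h2 : ∀ w : S2, (1 + (t : ℂ) * ((2 * Real.pi * inner ℝ (w : E 3) ξ : ℝ) * Complex.I)) *
      Complex.exp (((2 * Real.pi * (t * inner ℝ (w : E 3) ξ) : ℝ) : ℂ) * Complex.I) =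
      (fun c : ℝ => (1 + Complex.I * ((2 * Real.pi * t * ‖ξ‖ : ℝ) : ℂ) * c) *
    Complex.exp (Complex.I * ((2 * Real.pi * t * ‖ξ‖ : ℝ) : ℂ) * c)) (inner ℝ (y : E 3) (w : E 3)) := by
    intro w
    have h3 : inner ℝ (w : E 3) ξ = ‖ξ‖ * inner ℝ (y : E 3) (w : E 3) := by
      conv_lhs => rw [hy]
      rw [inner_smul_right, real_inner_comm]
    rw [h3]
    push_cast
    congr 1
    · ring
    · congr 1
      ring
  rw [integral_congr_ae (Filter.Eventually.of_forall h2), h1, Complex.real_smul]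
  push_cast
  ring

lemma inv_eq (φ : E 3 → ℂ) : inv φ = fun x => 𝓕 φ (-x) := by
  ext x
  rw [Real.fourier_eq']
  unfold inv
  congr 1
  ext ξ
  rw [smul_eq_mul, inner_neg_right, real_inner_comm]
  congr 3
  push_cast
  ring

lemma norm_int {φ : E 3 → ℂ} (h2 : Integrable (fun ξ => (‖ξ‖ : ℂ) * φ ξ)) :
    Integrable (fun ξ => ‖ξ‖ * ‖φ ξ‖) := by
  refine h2.norm.congr (Filter.Eventually.of_forall fun ξ => ?_)
  simp

lemma inv_contDiff {φ : E 3 → ℂ} (h1 : Integrable φ)
    (h2 : Integrable (fun ξ => (‖ξ‖ : ℂ) * φ ξ)) : ContDiff ℝ 1 (inv φ) := by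
  rw [inv_eq]
  have h3 : ContDiff ℝ ((1 : ℕ∞) : WithTop ℕ∞) (𝓕 φ) := by
    refine Real.contDiff_fourier fun n hn => ?_
    have hn' : n ≤ 1 := by exact_mod_cast hn
    interval_cases n
    · simpa using h1.norm
    · simpa using norm_int h2
  exact h3.comp contDiff_neg

lemma inv_fderiv {φ : E 3 → ℂ} (h1 : Integrable φ)
    (h2 : Integrable (fun ξ => (‖ξ‖ : ℂ) * φ ξ)) (x v : E 3) :
    fderiv ℝ (inv φ) x v = ∫ ξ, Complex.exp (((2 * Real.pi * ⟪x, ξ⟫ : ℝ) : ℂ) * Complex.I) *
      (((2 * Real.pi * ⟪v, ξ⟫ : ℝ) : ℂ) * Complex.I * φ ξ) := by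
  have h3 := Real.hasFDerivAt_fourier h1 (norm_int h2) (-x)
  have h4 : HasFDerivAt (inv φ) ((𝓕 (VectorFourier.fourierSMulRight (innerSL ℝ) φ) (-x)).comp
      (-(ContinuousLinearMap.id ℝ (E 3)))) x := by
    rw [inv_eq]
    exact h3.comp x (hasFDerivAt_id x).neg
  have hint : Integrable (VectorFourier.fourierSMulRight (innerSL ℝ) φ) := by
    have h5 := (norm_int h2).const_mul (2 * Real.pi * ‖(innerSL ℝ : E 3 →L[ℝ] E 3 →L[ℝ] ℝ)‖)
    refine h5.mono' ?_ (Filter.Eventually.of_forall fun ξ => ?_)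
    · exact h1.aestronglyMeasurable.fourierSMulRight
    · have := VectorFourier.norm_fourierSMulRight_le (innerSL ℝ : E 3 →L[ℝ] E 3 →L[ℝ] ℝ) φ ξ
      calc _ ≤ _ := this
        _ = _ := by ring
  rw [h4.fderiv]
  rw [ContinuousLinearMap.comp_apply, Real.fourier_eq']
  rw [ContinuousLinearMap.integral_apply]
  · congr 1
    ext ξ
    rw [smul_apply, VectorFourier.fourierSMulRight_apply]
    simp only [neg_apply, ContinuousLinearMap.id_apply, inner_neg_right]
    have h6 : (innerSL ℝ ξ) (-v) = -⟪v, ξ⟫ := by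
      rw [map_neg, innerSL_apply_apply, real_inner_comm]
    rw [h6, real_inner_comm, smul_eq_mul, Complex.real_smul, smul_eq_mul]
    have h7 : (-2 * Real.pi * -⟪x, ξ⟫ : ℝ) = 2 * Real.pi * ⟪x, ξ⟫ := by ring
    rw [h7]
    push_cast
    ring
  · have hc : Continuous (fun ξ : E 3 =>
        Complex.exp (((-2 * Real.pi * ⟪ξ, -x⟫ : ℝ) : ℂ) * Complex.I)) := by fun_prop
    refine hint.mono (hc.aestronglyMeasurable.smul hint.aestronglyMeasurable)
      (Filter.Eventually.of_forall fun ξ => ?_)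
    rw [norm_smul, Complex.norm_exp_ofReal_mul_I, one_mul]

theorem t_KIR : S_KIR := by
  intro φ h1 h2
  refine ⟨inv_contDiff h1 h2, fun t x => ?_⟩
  unfold U
  rw [int_sg]
  -- the integrand as an integral over the dual variable
  have h3 : ∀ w : S2, inv φ (x + t • (w : E 3)) +
      (t : ℂ) * fderiv ℝ (inv φ) (x + t • (w : E 3)) (w : E 3) =
      ∫ ξ, Complex.exp (((2 * Real.pi * ⟪x, ξ⟫ : ℝ) : ℂ) * Complex.I) * φ ξ *
        ((1 + (t : ℂ) * ((2 * Real.pi * inner ℝ (w : E 3) ξ : ℝ) * Complex.I)) *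
          Complex.exp (((2 * Real.pi * (t * inner ℝ (w : E 3) ξ) : ℝ) : ℂ) * Complex.I)) := by
    intro w
    rw [inv_fderiv h1 h2]
    unfold inv
    rw [← integral_const_mul, ← integral_add]
    · congr 1
      ext ξ
      have h4 : Complex.exp (((2 * Real.pi * ⟪x + t • (w : E 3), ξ⟫ : ℝ) : ℂ) * Complex.I) =
          Complex.exp (((2 * Real.pi * ⟪x, ξ⟫ : ℝ) : ℂ) * Complex.I) *
          Complex.exp (((2 * Real.pi * (t * inner ℝ (w : E 3) ξ) : ℝ) : ℂ) * Complex.I) := by
        rw [← Complex.exp_add, inner_add_left, real_inner_smul_left]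
        congr 1
        push_cast
        ring
      rw [h4]
      ring
    · refine h1.mono ((Continuous.aestronglyMeasurable (by fun_prop)).mul
        h1.aestronglyMeasurable) (Filter.Eventually.of_forall fun ξ => ?_)
      rw [norm_mul, Complex.norm_exp_ofReal_mul_I, one_mul]
    · refine Integrable.const_mul ?_ _
      refine ((norm_int h2).const_mul (2 * Real.pi)).mono'
        ((Continuous.aestronglyMeasurable (by fun_prop)).mul
        ((Continuous.aestronglyMeasurable (by fun_prop)).mul h1.aestronglyMeasurable))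
        (Filter.Eventually.of_forall fun ξ => ?_)
      rw [norm_mul, Complex.norm_exp_ofReal_mul_I, one_mul, norm_mul, norm_mul, Complex.norm_I,
        mul_one, Complex.norm_real, norm_mul, Real.norm_of_nonneg (by positivity : (0:ℝ) ≤ 2 * Real.pi),
        mul_assoc]
      have h5 : ‖inner ℝ (w : E 3) ξ‖ ≤ ‖ξ‖ := by
        have := norm_inner_le_norm (𝕜 := ℝ) (w : E 3) ξ
        rwa [mem_sphere_zero_iff_norm.1 w.2, one_mul] at this
      gcongr
  rw [integral_congr_ae (Filter.Eventually.of_forall h3)]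
  have hint : Integrable (Function.uncurry fun (w : S2) (ξ : E 3) =>
      Complex.exp (((2 * Real.pi * ⟪x, ξ⟫ : ℝ) : ℂ) * Complex.I) * φ ξ *
        ((1 + (t : ℂ) * ((2 * Real.pi * inner ℝ (w : E 3) ξ : ℝ) * Complex.I)) *
          Complex.exp (((2 * Real.pi * (t * inner ℝ (w : E 3) ξ) : ℝ) : ℂ) * Complex.I)))
      (nu.prod volume) := by
    have hb : Integrable (fun ξ : E 3 => ‖φ ξ‖ + |t| * (2 * Real.pi) * (‖ξ‖ * ‖φ ξ‖)) :=
      h1.norm.add ((norm_int h2).const_mul _)
    refine (hb.comp_snd nu).mono' ?_ (Filter.Eventually.of_forall fun p => ?_)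
    · refine ((Continuous.aestronglyMeasurable (by fun_prop)).mul
        h1.aestronglyMeasurable.comp_snd).mul (Continuous.aestronglyMeasurable (by fun_prop))
    · obtain ⟨w, ξ⟩ := p
      simp only [Function.uncurry_apply_pair]
      rw [norm_mul, norm_mul, norm_mul, Complex.norm_exp_ofReal_mul_I, one_mul,
        Complex.norm_exp_ofReal_mul_I, mul_one]
      have h5 : ‖inner ℝ (w : E 3) ξ‖ ≤ ‖ξ‖ := by
        have := norm_inner_le_norm (𝕜 := ℝ) (w : E 3) ξ
        rwa [mem_sphere_zero_iff_norm.1 w.2, one_mul] at this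
      have h6 : ‖1 + (t : ℂ) * ((2 * Real.pi * inner ℝ (w : E 3) ξ : ℝ) * Complex.I)‖ ≤
          1 + |t| * (2 * Real.pi * ‖ξ‖) := by
        refine (norm_add_le _ _).trans ?_
        rw [norm_one, norm_mul, norm_mul, Complex.norm_I, mul_one, Complex.norm_real,
          Complex.norm_real, norm_mul, Real.norm_of_nonneg (by positivity : (0:ℝ) ≤ 2 * Real.pi),
          Real.norm_eq_abs t]
        gcongr
      calc ‖φ ξ‖ * ‖1 + (t : ℂ) * ((2 * Real.pi * inner ℝ (w : E 3) ξ : ℝ) * Complex.I)‖ ≤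
          ‖φ ξ‖ * (1 + |t| * (2 * Real.pi * ‖ξ‖)) := by gcongr
        _ = _ := by ring
  rw [integral_integral_swap hint]
  unfold inv
  rw [← integral_const_mul]
  congr 1
  ext ξ
  rw [integral_const_mul, int_J]
  have hpi : (Real.pi : ℂ) ≠ 0 := by exact_mod_cast Real.pi_ne_zero
  push_cast
  field_simp

end Pool.Agent.U480.WV
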